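import Pool.Agent.K3h31.PC.Cnt

/-!
# One good point in every small box
-/

set_option autoImplicit false

open Filter Topology

namespace Pool.Agent.K3h31.PC

open Pool.Agent.Y749.Rig (Fr nT nT_pos one_lt_log Fr_nonneg)

lemma exp_pow {y : ℝ} (hy : 0 < y) (n : ℕ) : Real.exp (-(n * Real.log y)) = (y ^ n)⁻¹ := by
  rw [Real.exp_neg, Real.exp_nat_mul, Real.exp_log hy]

/-- the error term is small -/
lemma err_small (C : ℝ) (hC : 0 < C) {δ : ℝ} (hδ : 0 < δ) : ∃ T₀ : ℝ, 10 ≤ T₀ ∧ ∀ T : ℝ, T₀ ≤ T →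
    C * T ^ (4 / 5 : ℝ) * Real.log T ^ 2 ≤ δ * nT T := by
  have h1 := (isLittleO_log_rpow_atTop (show (0 : ℝ) < 1 / 5 by norm_num)).bound
    (show 0 < δ / (2 * Real.pi * C) by positivity)
  obtain ⟨T₁, hT₁⟩ := (h1.and (eventually_ge_atTop (10 : ℝ))).exists_forall_of_atTop
  refine ⟨max T₁ 10, le_max_right _ _, fun T hT => ?_⟩
  obtain ⟨h2, -⟩ := hT₁ T ((le_max_left _ _).trans hT)
  have hT10 : 10 ≤ T := (le_max_right _ _).trans hT
  have hL := one_lt_log (show 3 ≤ T by linarith)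
  have hT0 : 0 < T := by linarith
  have hp : 0 < T ^ (1 / 5 : ℝ) := Real.rpow_pos_of_pos hT0 _
  have hp4 : 0 < T ^ (4 / 5 : ℝ) := Real.rpow_pos_of_pos hT0 _
  rw [Real.norm_eq_abs, Real.norm_eq_abs, abs_of_pos (by linarith), abs_of_pos hp] at h2
  have e : T ^ (4 / 5 : ℝ) * T ^ (1 / 5 : ℝ) = T := by
    rw [← Real.rpow_add hT0]
    norm_num
  have hpi := Real.pi_pos
  calc C * T ^ (4 / 5 : ℝ) * Real.log T ^ 2 = C * T ^ (4 / 5 : ℝ) * Real.log T * Real.log T := by ring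
    _ ≤ C * T ^ (4 / 5 : ℝ) * Real.log T * (δ / (2 * Real.pi * C) * T ^ (1 / 5 : ℝ)) := by
        gcongr
    _ = δ * ((T ^ (4 / 5 : ℝ) * T ^ (1 / 5 : ℝ)) * Real.log T / (2 * Real.pi)) := by
        field_simp
    _ = δ * nT T := by rw [e]; rfl

lemma nT_ratio {T t δ : ℝ} (hT : 10 ≤ T) (hδ : 0 < δ) (hTt : T ≤ t) (ht : t ≤ (1 + δ) * T) :
    nT t ≤ (1 + δ) ^ 2 * nT T := by
  have hL := one_lt_log (show 3 ≤ T by linarith)
  have hpi := Real.pi_pos
  have h1 : Real.log t ≤ (1 + δ) * Real.log T := by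
    have h2 : Real.log t ≤ Real.log ((1 + δ) * T) := Real.log_le_log (by linarith) ht
    rw [Real.log_mul (by linarith) (by linarith)] at h2
    have h3 : Real.log (1 + δ) ≤ δ := by
      have := Real.log_le_sub_one_of_pos (show 0 < 1 + δ by linarith)
      linarith
    nlinarith
  have hL' : 0 < Real.log t := Real.log_pos (by linarith)
  unfold nT
  have h4 : t * Real.log t ≤ ((1 + δ) * T) * ((1 + δ) * Real.log T) :=
    mul_le_mul ht h1 hL'.le (by nlinarith)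
  calc t * Real.log t / (2 * Real.pi) ≤ ((1 + δ) * T) * ((1 + δ) * Real.log T) / (2 * Real.pi) := by
        gcongr
    _ = _ := by ring

/-- the hypothesis: one good point in every box -/
def Boxes : Prop := ∀ A : ℝ, 1 < A → ∀ ε : ℝ, 0 < ε → ∃ T₀ : ℝ, ∀ T : ℝ, T₀ ≤ T → ∀ X : ℝ,
  (1 + ε) * T ≤ X → X ≤ T ^ A → ∃ t x : ℝ, T ≤ t ∧ t ≤ (1 + ε) * T ∧ X ≤ x ∧ x ≤ (1 + ε) * X ∧
    |Fr t (Real.log x / Real.log t) - 1| ≤ ε

lemma pow_bounds {δ : ℝ} (hδ : 0 < δ) (hδ1 : δ ≤ 1 / 40) :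
    (1 + δ) ^ 4 ≤ 1 + 5 * δ ∧ (1 + δ) ^ 6 * (1 + 2 * δ) ≤ 1 + 40 * δ := by
  have h2 : (1 + δ) ^ 2 ≤ 1 + 2.025 * δ := by nlinarith
  have h20 : 0 ≤ (1 + δ) ^ 2 := by positivity
  have h4 : (1 + δ) ^ 4 ≤ 1 + 4.2 * δ := by
    calc (1 + δ) ^ 4 = (1 + δ) ^ 2 * (1 + δ) ^ 2 := by ring
      _ ≤ (1 + 2.025 * δ) * (1 + 2.025 * δ) := by gcongr
      _ ≤ 1 + 4.2 * δ := by nlinarith
  have h6 : (1 + δ) ^ 6 ≤ 1 + 7 * δ := by
    calc (1 + δ) ^ 6 = (1 + δ) ^ 4 * (1 + δ) ^ 2 := by ring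
      _ ≤ (1 + 4.2 * δ) * (1 + 2.025 * δ) := by gcongr
      _ ≤ 1 + 7 * δ := by nlinarith
  refine ⟨by linarith, ?_⟩
  calc (1 + δ) ^ 6 * (1 + 2 * δ) ≤ (1 + 7 * δ) * (1 + 2 * δ) := by gcongr
    _ ≤ 1 + 40 * δ := by nlinarith

/-- **One good point in every small box gives the uniform asymptotic formula.** -/
theorem of_boxes (h : Boxes) {A : ℝ} (hA : 1 < A) {ε : ℝ} (hε : 0 < ε) : ∃ T₀ : ℝ, ∀ T : ℝ,
    T₀ ≤ T → ∀ α : ℝ, 1 ≤ α → α ≤ A → |Fr T α - 1| ≤ ε := by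
  obtain ⟨C, hC, hinc⟩ := incr
  obtain ⟨δ, hδd⟩ : ∃ δ : ℝ, δ = min (1 / 40) (ε / 40) := ⟨_, rfl⟩
  have hδ : 0 < δ := by rw [hδd]; exact lt_min (by norm_num) (by positivity)
  have hδ1 : δ ≤ 1 / 40 := by rw [hδd]; exact min_le_left _ _
  have hδε : 40 * δ ≤ ε := by
    have : δ ≤ ε / 40 := by rw [hδd]; exact min_le_right _ _
    linarith
  obtain ⟨hp4, hp6⟩ := pow_bounds hδ hδ1
  obtain ⟨T₁, hT₁⟩ := h (A + 1) (by linarith) δ hδ
  obtain ⟨T₂, hT₂, herr⟩ := err_small C hC hδ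
  obtain ⟨T₃, hT₃⟩ : ∃ T₃ : ℝ, T₃ = (1 + δ) ^ (A + 1) := ⟨_, rfl⟩
  refine ⟨(1 + δ) * max (max T₁ T₂) (max T₃ 20), fun T hT α hα1 hαA => ?_⟩
  have hd1 : 1 ≤ 1 + δ := by linarith
  have hd0 : 0 < 1 + δ := by linarith
  obtain ⟨S, hS⟩ : ∃ S : ℝ, S = T / (1 + δ) := ⟨_, rfl⟩
  have hST : (1 + δ) * S = T := by rw [hS]; field_simp
  have hSM : max (max T₁ T₂) (max T₃ 20) ≤ S := by
    rw [hS, le_div_iff₀ hd0]
    linarith
  have hS1 : T₁ ≤ S := (le_max_left _ _).trans ((le_max_left _ _).trans hSM)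
  have hS2 : T₂ ≤ S := (le_max_right _ _).trans ((le_max_left _ _).trans hSM)
  have hS3 : T₃ ≤ S := (le_max_left _ _).trans ((le_max_right _ _).trans hSM)
  have hS4 : 20 ≤ S := (le_max_right _ _).trans ((le_max_right _ _).trans hSM)
  have hSle : S ≤ T := by nlinarith
  have hT20 : 20 ≤ T := hS4.trans hSle
  have hT10 : 10 ≤ T := by linarith
  have hS10 : 10 ≤ S := by linarith
  have hT0 : 0 < T := by linarith
  have hS0 : 0 < S := by linarith
  have hL := one_lt_log (show 3 ≤ T by linarith)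
  have hLT : 0 < Real.log T := by linarith
  have hn := nT_pos hT10
  obtain ⟨X, hX⟩ : ∃ X : ℝ, X = T ^ α := ⟨_, rfl⟩
  have hX0 : 0 < X := by rw [hX]; exact Real.rpow_pos_of_pos hT0 _
  have hlogX : Real.log X = α * Real.log T := by rw [hX, Real.log_rpow hT0]
  have hTX : T ≤ X := by
    rw [hX]
    calc T = T ^ (1 : ℝ) := (Real.rpow_one T).symm
      _ ≤ T ^ α := Real.rpow_le_rpow_of_exponent_le (by linarith) hα1
  have hXA : X ≤ T ^ A := by
    rw [hX]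
    exact Real.rpow_le_rpow_of_exponent_le (by linarith) hαA
  have hld : 0 ≤ Real.log (1 + δ) := Real.log_nonneg hd1
  -- the upper bound
  have up : Fr T α ≤ 1 + 40 * δ := by
    obtain ⟨t, x, ht1, ht2, hx1, hx2, hF⟩ := hT₁ T (hS1.trans hSle) ((1 + δ) * X)
      (mul_le_mul_of_nonneg_left hTX hd0.le) (by
        calc (1 + δ) * X ≤ T * T ^ A := mul_le_mul (by linarith) hXA hX0.le hT0.le
          _ = T ^ (A + 1) := by rw [Real.rpow_add hT0, Real.rpow_one]; ring)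
    have ht10 : 10 ≤ t := hT10.trans ht1
    have hnt := nT_pos ht10
    have hLt : 0 < Real.log t := Real.log_pos (by linarith)
    have hx0 : 0 < x := lt_of_lt_of_le (by positivity) hx1
    have h1 := hinc T t hT10 ht1 α (Real.log x / Real.log t)
    rw [div_mul_cancel₀ _ hLt.ne', ← hlogX] at h1
    have hh : |Real.log x - Real.log X| ≤ 2 * Real.log (1 + δ) := by
      have a1 : Real.log ((1 + δ) * X) ≤ Real.log x := Real.log_le_log (by positivity) hx1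
      have a2 : Real.log x ≤ Real.log ((1 + δ) * ((1 + δ) * X)) := Real.log_le_log hx0 hx2
      rw [Real.log_mul hd0.ne' hX0.ne'] at a1
      rw [Real.log_mul hd0.ne' (by positivity), Real.log_mul hd0.ne' hX0.ne'] at a2
      rw [abs_le]
      constructor <;> linarith
    have he : ((1 + δ) ^ 4)⁻¹ ≤ Real.exp (-(2 * |Real.log x - Real.log X|)) := by
      rw [← exp_pow hd0 4]
      refine Real.exp_le_exp.2 ?_
      push_cast
      linarith
    have hF2 : Fr t (Real.log x / Real.log t) ≤ 1 + δ := by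
      have := (abs_le.1 hF).2
      linarith
    have h2 := herr t (hS2.trans (hSle.trans ht1))
    have h3 := nT_ratio hT10 hδ ht1 ht2
    have h4 : nT t * Fr t (Real.log x / Real.log t) ≤ nT t * (1 + δ) :=
      mul_le_mul_of_nonneg_left hF2 hnt.le
    have h5 : nT t * (1 + 2 * δ) ≤ ((1 + δ) ^ 2 * nT T) * (1 + 2 * δ) :=
      mul_le_mul_of_nonneg_right h3 (by linarith)
    have h6 : nT T * (Real.exp (-(2 * |Real.log x - Real.log X|)) * Fr T α) ≤
        nT T * ((1 + δ) ^ 2 * (1 + 2 * δ)) := by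
      calc _ ≤ nT t * (1 + δ) + δ * nT t := h1.trans (add_le_add h4 h2)
        _ = nT t * (1 + 2 * δ) := by ring
        _ ≤ ((1 + δ) ^ 2 * nT T) * (1 + 2 * δ) := h5
        _ = _ := by ring
    have h7 := le_of_mul_le_mul_left h6 hn
    have h8 : ((1 + δ) ^ 4)⁻¹ * Fr T α ≤ (1 + δ) ^ 2 * (1 + 2 * δ) :=
      (mul_le_mul_of_nonneg_right he (Fr_nonneg hT10 α)).trans h7
    have h9 : Fr T α ≤ (1 + δ) ^ 6 * (1 + 2 * δ) := by
      rw [inv_mul_le_iff₀ (by positivity)] at h8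
      calc Fr T α ≤ _ := h8
        _ = _ := by ring
    exact h9.trans hp6
  -- the lower bound
  have lo : 1 - 40 * δ ≤ Fr T α := by
    obtain ⟨t, x, ht1, ht2, hx1, hx2, hF⟩ := hT₁ S hS1 X (by rw [hST]; exact hTX) (by
      refine hXA.trans ?_
      rw [← hST, Real.mul_rpow hd0.le hS0.le, Real.rpow_add hS0, Real.rpow_one, mul_comm]
      refine mul_le_mul_of_nonneg_left ?_ (Real.rpow_nonneg hS0.le _)
      refine le_trans ?_ hS3
      rw [hT₃]
      exact Real.rpow_le_rpow_of_exponent_le hd1 (by linarith))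
    rw [hST] at ht2
    have ht10 : 10 ≤ t := hS10.trans ht1
    have hnt := nT_pos ht10
    have hLt : 0 < Real.log t := Real.log_pos (by linarith)
    have hx0 : 0 < x := lt_of_lt_of_le hX0 hx1
    have h1 := hinc t T ht10 ht2 (Real.log x / Real.log t) α
    rw [div_mul_cancel₀ _ hLt.ne', ← hlogX] at h1
    have hh : |Real.log X - Real.log x| ≤ Real.log (1 + δ) := by
      have a1 : Real.log X ≤ Real.log x := Real.log_le_log hX0 hx1
      have a2 : Real.log x ≤ Real.log ((1 + δ) * X) := Real.log_le_log hx0 hx2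
      rw [Real.log_mul hd0.ne' hX0.ne'] at a2
      rw [abs_le]
      constructor <;> linarith
    have he : ((1 + δ) ^ 2)⁻¹ ≤ Real.exp (-(2 * |Real.log X - Real.log x|)) := by
      rw [← exp_pow hd0 2]
      refine Real.exp_le_exp.2 ?_
      push_cast
      linarith
    have hF2 : 1 - δ ≤ Fr t (Real.log x / Real.log t) := by
      have := (abs_le.1 hF).1
      linarith
    have h2 := herr T (hS2.trans hSle)
    have h3 : nT T ≤ (1 + δ) ^ 2 * nT t := nT_ratio ht10 hδ ht2 (by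
      rw [← hST]
      exact mul_le_mul_of_nonneg_left ht1 hd0.le)
    have h4 : nT t * (((1 + δ) ^ 2)⁻¹ * (1 - δ)) ≤ nT t *
        (Real.exp (-(2 * |Real.log X - Real.log x|)) * Fr t (Real.log x / Real.log t)) := by
      refine mul_le_mul_of_nonneg_left ?_ hnt.le
      exact mul_le_mul he hF2 (by linarith) (Real.exp_pos _).le
    have h5 : nT T * (((1 + δ) ^ 4)⁻¹ * (1 - δ)) ≤ nT t * (((1 + δ) ^ 2)⁻¹ * (1 - δ)) := by
      have h50 : 0 ≤ ((1 + δ) ^ 4)⁻¹ * (1 - δ) := mul_nonneg (by positivity) (by linarith)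
      calc nT T * (((1 + δ) ^ 4)⁻¹ * (1 - δ)) ≤ ((1 + δ) ^ 2 * nT t) * (((1 + δ) ^ 4)⁻¹ * (1 - δ)) :=
            mul_le_mul_of_nonneg_right h3 h50
        _ = _ := by
            field_simp
    have h6 : nT T * (((1 + δ) ^ 4)⁻¹ * (1 - δ)) ≤ nT T * (Fr T α + δ) := by
      calc _ ≤ _ := h5.trans (h4.trans (h1.trans (add_le_add le_rfl h2)))
        _ = _ := by ring
    have h7 := le_of_mul_le_mul_left h6 hn
    have h8 : 1 - 6 * δ ≤ ((1 + δ) ^ 4)⁻¹ * (1 - δ) := by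
      rw [le_inv_mul_iff₀ (by positivity)]
      have h80 : 0 ≤ 1 - 6 * δ := by linarith
      calc (1 + δ) ^ 4 * (1 - 6 * δ) ≤ (1 + 5 * δ) * (1 - 6 * δ) := by gcongr
        _ ≤ 1 - δ := by nlinarith
    linarith
  rw [abs_le]
  constructor <;> linarith

end Pool.Agent.K3h31.PC
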