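import Pool.Agent.K3h31.PC.Sup
import Pool.Agent.K3h84.PC.FF

/-!
# The pair sum of the zeros is nearly increasing in `T`
-/

set_option autoImplicit false

namespace Pool.Agent.K3h31.PC

open Pool.Agent.K3h84.PC (Q wk Q_nonneg wk_pos wk_le wk_neg harnack G_log G_eq)
open Pool.Agent.Y749.Rig (Fr ZZ mm nT nT_pos mm_nonneg one_lt_log fw sup_fw mem_ZZ)

/-- zeros in an interval -/
theorem cntI : ∃ C : ℝ, 0 < C ∧ ∀ T : ℝ, 10 ≤ T → ∀ a H : ℝ, 1 ≤ H →
    ∑ s ∈ ZZ T, mm s * (if a ≤ s.im ∧ s.im ≤ a + H then 1 else 0) ≤ C * H * Real.log T := by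
  obtain ⟨C, hC, h⟩ := sup_fw
  refine ⟨3 * C, by positivity, fun T hT a H hH => ?_⟩
  have hL := one_lt_log (show 3 ≤ T by linarith)
  obtain ⟨N, hN⟩ : ∃ N : ℕ, N = ⌊H⌋₊ + 2 := ⟨_, rfl⟩
  have h1 : ∀ s : ℂ, (if a ≤ s.im ∧ s.im ≤ a + H then (1 : ℝ) else 0) ≤
      ∑ k ∈ Finset.range N, if |s.im - (a + k)| ≤ 1 / 2 then 1 else 0 := by
    intro s
    have h0 : 0 ≤ ∑ k ∈ Finset.range N, if |s.im - (a + k)| ≤ 1 / 2 then (1 : ℝ) else 0 :=
      Finset.sum_nonneg fun k _ => by split_ifs <;> norm_num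
    split_ifs with hs
    · obtain ⟨k, hk⟩ : ∃ k : ℕ, k = ⌊s.im - a + 1 / 2⌋₊ := ⟨_, rfl⟩
      have hp : 0 ≤ s.im - a + 1 / 2 := by linarith [hs.1]
      have hk1 := Nat.floor_le hp
      have hk2 := Nat.lt_floor_add_one (s.im - a + 1 / 2)
      rw [← hk] at hk1 hk2
      have hkN : k ∈ Finset.range N := by
        rw [Finset.mem_range, hN]
        have h3 := Nat.lt_floor_add_one H
        have h4 : (k : ℝ) < ((⌊H⌋₊ + 2 : ℕ) : ℝ) := by
          push_cast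
          linarith [hs.2]
        exact_mod_cast h4
      have h5 : |s.im - (a + k)| ≤ 1 / 2 := by
        rw [abs_le]
        constructor <;> linarith
      calc (1 : ℝ) = if |s.im - (a + k)| ≤ 1 / 2 then 1 else 0 := by rw [if_pos h5]
        _ ≤ _ := Finset.single_le_sum (f := fun k : ℕ => if |s.im - (a + k)| ≤ 1 / 2 then (1 : ℝ)
            else 0) (fun k _ => by split_ifs <;> norm_num) hkN
    · exact h0
  calc ∑ s ∈ ZZ T, mm s * (if a ≤ s.im ∧ s.im ≤ a + H then 1 else 0)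
      ≤ ∑ s ∈ ZZ T, mm s * ∑ k ∈ Finset.range N, (if |s.im - (a + k)| ≤ 1 / 2 then 1 else 0) :=
        Finset.sum_le_sum fun s _ => mul_le_mul_of_nonneg_left (h1 s) (mm_nonneg s)
    _ = ∑ k ∈ Finset.range N, fw (ZZ T) mm 2 (a + k) := by
        simp_rw [Finset.mul_sum]
        rw [Finset.sum_comm]
        refine Finset.sum_congr rfl fun k _ => ?_
        unfold fw
        rw [Finset.sum_filter]
        refine Finset.sum_congr rfl fun s _ => ?_
        split_ifs <;> simp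
    _ ≤ ∑ k ∈ Finset.range N, C * Real.log T :=
        Finset.sum_le_sum fun k _ => h T hT 2 (by norm_num) _
    _ = N * (C * Real.log T) := by rw [Finset.sum_const, Finset.card_range, nsmul_eq_mul]
    _ ≤ (3 * H) * (C * Real.log T) := by
        refine mul_le_mul_of_nonneg_right ?_ (by positivity)
        rw [hN]
        push_cast
        have := Nat.floor_le (show 0 ≤ H by linarith)
        linarith
    _ = 3 * C * H * Real.log T := by ring

lemma ZZ_mono {T T' : ℝ} (h : T ≤ T') : ZZ T ⊆ ZZ T' := by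
  intro s hs
  rw [mem_ZZ] at hs ⊢
  exact ⟨hs.1, hs.2.1, hs.2.2.1, hs.2.2.2.1, hs.2.2.2.2.trans h⟩

lemma ZZ_im {T : ℝ} {s : ℂ} (hs : s ∈ ZZ T) : 0 ≤ s.im ∧ s.im ≤ T := by
  rw [mem_ZZ] at hs
  exact ⟨hs.2.2.2.1, hs.2.2.2.2⟩

lemma ZZ_gt {T T' : ℝ} {s : ℂ} (hs : s ∈ ZZ T' \ ZZ T) : T < s.im := by
  rw [Finset.mem_sdiff, mem_ZZ, mem_ZZ] at hs
  by_contra hcon
  push Not at hcon
  exact hs.2 ⟨hs.1.1, hs.1.2.1, hs.1.2.2.1, hs.1.2.2.2.1, hcon⟩

/-- the sum over the pairs on different sides of `T` -/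
theorem cross : ∃ C : ℝ, 0 < C ∧ ∀ T T' : ℝ, 10 ≤ T → T ≤ T' → ∀ u : ℝ, 1 ≤ u → T' = u ^ 5 →
    Cr (ZZ T) (ZZ T' \ ZZ T) mm (fun s => s.im) ≤ C * u ^ 4 * Real.log T' ^ 2 := by
  obtain ⟨C, hC, h⟩ := cntI
  refine ⟨9 * C ^ 2, by positivity, fun T T' hT hTT u hu hTu => ?_⟩
  have hT' : 10 ≤ T' := hT.trans hTT
  have hL := one_lt_log (show 3 ≤ T' by linarith)
  have hu0 : 0 < u := by linarith
  have hu2 : 1 ≤ u ^ 2 := one_le_pow₀ hu
  have hu4 : 1 ≤ u ^ 4 := one_le_pow₀ hu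
  -- the left sums
  have hl : ∀ H : ℝ, 1 ≤ H → ∑ s ∈ ZZ T, mm s * (if T - H ≤ s.im then 1 else 0) ≤
      C * H * Real.log T' := by
    intro H hH
    refine le_trans ?_ (h T' hT' (T - H) H hH)
    calc ∑ s ∈ ZZ T, mm s * (if T - H ≤ s.im then 1 else 0)
        ≤ ∑ s ∈ ZZ T, mm s * (if T - H ≤ s.im ∧ s.im ≤ T - H + H then 1 else 0) := by
          refine Finset.sum_le_sum fun s hs => ?_
          refine mul_le_mul_of_nonneg_left ?_ (mm_nonneg s)
          have := (ZZ_im hs).2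
          by_cases c : T - H ≤ s.im
          · rw [if_pos c, if_pos ⟨c, by linarith⟩]
          · rw [if_neg c]
            split_ifs <;> norm_num
      _ ≤ _ := by
          refine Finset.sum_le_sum_of_subset_of_nonneg (ZZ_mono hTT) fun s _ _ => ?_
          refine mul_nonneg (mm_nonneg s) ?_
          split_ifs <;> norm_num
  -- the right sums
  have hr : ∀ H : ℝ, 1 ≤ H → ∑ s ∈ ZZ T' \ ZZ T, mm s * (if s.im ≤ T + H then 1 else 0) ≤
      C * H * Real.log T' := by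
    intro H hH
    refine le_trans ?_ (h T' hT' T H hH)
    calc ∑ s ∈ ZZ T' \ ZZ T, mm s * (if s.im ≤ T + H then 1 else 0)
        ≤ ∑ s ∈ ZZ T' \ ZZ T, mm s * (if T ≤ s.im ∧ s.im ≤ T + H then 1 else 0) := by
          refine Finset.sum_le_sum fun s hs => ?_
          refine mul_le_mul_of_nonneg_left ?_ (mm_nonneg s)
          have := ZZ_gt hs
          by_cases c : s.im ≤ T + H
          · rw [if_pos c, if_pos ⟨this.le, c⟩]
          · rw [if_neg c]
            split_ifs <;> norm_num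
      _ ≤ _ := by
          refine Finset.sum_le_sum_of_subset_of_nonneg Finset.sdiff_subset fun s _ _ => ?_
          refine mul_nonneg (mm_nonneg s) ?_
          split_ifs <;> norm_num
  -- all zeros
  have ha : ∑ s ∈ ZZ T', mm s ≤ C * T' * Real.log T' := by
    refine le_trans (le_of_eq ?_) (h T' hT' 0 T' (by linarith))
    refine Finset.sum_congr rfl fun s hs => ?_
    rw [if_pos ⟨(ZZ_im hs).1, by linarith [(ZZ_im hs).2]⟩, mul_one]
  have ha1 : ∑ s ∈ ZZ T, mm s ≤ C * T' * Real.log T' :=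
    (Finset.sum_le_sum_of_subset_of_nonneg (ZZ_mono hTT) fun s _ _ => mm_nonneg s).trans ha
  have ha2 : ∑ s ∈ ZZ T' \ ZZ T, mm s ≤ C * T' * Real.log T' :=
    (Finset.sum_le_sum_of_subset_of_nonneg Finset.sdiff_subset fun s _ _ => mm_nonneg s).trans ha
  have n0 : ∀ (A : Finset ℂ) (p : ℂ → Prop) [DecidablePred p],
      0 ≤ ∑ s ∈ A, mm s * (if p s then (1 : ℝ) else 0) := by
    intro A p _
    refine Finset.sum_nonneg fun s _ => mul_nonneg (mm_nonneg s) ?_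
    split_ifs <;> norm_num
  have n1 : ∀ A : Finset ℂ, 0 ≤ ∑ s ∈ A, mm s := fun A => Finset.sum_nonneg fun s _ => mm_nonneg s
  have hk := Cr_le (ZZ T) (ZZ T' \ ZZ T) mm (fun s => s.im) mm_nonneg (T := T) (h1 := u ^ 2)
    (h2 := u ^ 4) (fun s hs => (ZZ_im hs).2) (fun s hs => (ZZ_gt hs).le) (by positivity)
    (by positivity)
  refine hk.trans ?_
  have m1 := mul_le_mul (hl (u ^ 2) hu2) (hr (u ^ 2) hu2) (n0 _ _) (by positivity)
  have m2 := mul_le_mul (hl (u ^ 4) hu4) (hr (u ^ 4) hu4) (n0 _ _) (by positivity)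
  have m3 := mul_le_mul ha1 ha2 (n1 _) (by positivity)
  have m2' := mul_le_mul_of_nonneg_left m2 (show 0 ≤ 4 / (u ^ 2) ^ 2 by positivity)
  have m3' := mul_le_mul_of_nonneg_left m3 (show 0 ≤ 4 / (u ^ 4) ^ 2 by positivity)
  refine (add_le_add (add_le_add m1 m2') m3').trans ?_
  have e1 : C * u ^ 2 * Real.log T' * (C * u ^ 2 * Real.log T') = C ^ 2 * u ^ 4 * Real.log T' ^ 2 := by
    ring
  have e2 : 4 / (u ^ 2) ^ 2 * (C * u ^ 4 * Real.log T' * (C * u ^ 4 * Real.log T')) =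
      4 * C ^ 2 * u ^ 4 * Real.log T' ^ 2 := by
    field_simp
  have e3 : 4 / (u ^ 4) ^ 2 * (C * T' * Real.log T' * (C * T' * Real.log T')) =
      4 * C ^ 2 * u ^ 2 * Real.log T' ^ 2 := by
    obtain ⟨l, hl⟩ : ∃ l, l = Real.log T' := ⟨_, rfl⟩
    rw [← hl, hTu]
    field_simp
  rw [e1, e2, e3]
  have h24 : u ^ 2 ≤ u ^ 4 := pow_le_pow_right₀ hu (by norm_num)
  have : 4 * C ^ 2 * u ^ 2 * Real.log T' ^ 2 ≤ 4 * C ^ 2 * u ^ 4 * Real.log T' ^ 2 := by gcongr
  linarith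

lemma Fr_Q {T : ℝ} (hT : 10 ≤ T) (α : ℝ) :
    nT T * Fr T α = Q (ZZ T) mm (fun s => s.im) (α * Real.log T) := by
  have hL := one_lt_log (show 3 ≤ T by linarith)
  have hn := nT_pos hT
  have h1 := G_eq hT (show 0 < Real.log T by linarith) α
  rw [G_log, div_self (by linarith : Real.log T ≠ 0)] at h1
  simp only [mul_one] at h1
  rw [h1]
  field_simp

/-- **The pair sum is nearly increasing in `T`** -/
theorem incr : ∃ C : ℝ, 0 < C ∧ ∀ T T' : ℝ, 10 ≤ T → T ≤ T' → ∀ α α' : ℝ,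
    nT T * (Real.exp (-(2 * |α' * Real.log T' - α * Real.log T|)) * Fr T α) ≤
      nT T' * Fr T' α' + C * T' ^ (4 / 5 : ℝ) * Real.log T' ^ 2 := by
  classical
  obtain ⟨C, hC, h⟩ := cross
  refine ⟨2 * C, by positivity, fun T T' hT hTT α α' => ?_⟩
  have hT' : 10 ≤ T' := hT.trans hTT
  have hT0 : 0 ≤ T' := by linarith
  have h1 := h T T' hT hTT (T' ^ (1 / 5 : ℝ)) (Real.one_le_rpow (by linarith) (by norm_num)) (by
    rw [← Real.rpow_natCast, ← Real.rpow_mul hT0]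
    norm_num)
  have e1 : (T' ^ (1 / 5 : ℝ)) ^ 4 = T' ^ (4 / 5 : ℝ) := by
    rw [← Real.rpow_natCast, ← Real.rpow_mul hT0]
    norm_num
  rw [e1] at h1
  have h2 := Q_super (ZZ_mono hTT) mm (fun s => s.im) mm_nonneg (α' * Real.log T')
  have h3 := harnack (ZZ T) mm (fun s => s.im) (α * Real.log T)
    (α' * Real.log T' - α * Real.log T)
  rw [add_sub_cancel] at h3
  rw [← Fr_Q hT] at h3
  rw [← Fr_Q hT'] at h2
  have e2 : nT T * (Real.exp (-(2 * |α' * Real.log T' - α * Real.log T|)) * Fr T α) =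
      Real.exp (-(2 * |α' * Real.log T' - α * Real.log T|)) * (nT T * Fr T α) := by ring
  rw [e2]
  have e3 : 2 * C * T' ^ (4 / 5 : ℝ) * Real.log T' ^ 2 =
      2 * (C * T' ^ (4 / 5 : ℝ) * Real.log T' ^ 2) := by ring
  rw [e3]
  linarith

end Pool.Agent.K3h31.PC
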