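import Pool.Agent.K3h84.PC.Har

/-!
# Weighted pair sums over increasing sets of frequencies
-/

set_option autoImplicit false

namespace Pool.Agent.K3h31.PC

open Pool.Agent.K3h84.PC (Q wk Q_nonneg wk_pos wk_le wk_neg harnack)

/-- the cross sum -/
noncomputable def Cr {ι : Type*} (A B : Finset ι) (m g : ι → ℝ) : ℝ :=
  ∑ s ∈ A, ∑ s' ∈ B, m s * m s' * wk (g s - g s')

lemma Q_super {ι : Type*} [DecidableEq ι] {A B : Finset ι} (h : A ⊆ B) (m g : ι → ℝ)
    (hm : ∀ n, 0 ≤ m n) (τ : ℝ) :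
    Q A m g τ - 2 * Cr A (B \ A) m g ≤ Q B m g τ := by
  obtain ⟨f, hf⟩ : ∃ f : ι → ι → ℝ, f = fun s s' =>
    m s * m s' * (Real.cos (τ * (g s - g s')) * wk (g s - g s')) := ⟨_, rfl⟩
  have hfs : ∀ s s', f s s' = f s' s := by
    intro s s'
    rw [hf]
    simp only
    rw [show g s' - g s = -(g s - g s') by ring, wk_neg, mul_neg, Real.cos_neg]
    ring
  have hQ : ∀ X : Finset ι, Q X m g τ = ∑ s ∈ X, ∑ s' ∈ X, f s s' := by
    intro X
    rw [hf]
    rfl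
  have e : ∀ F : ι → ℝ, ∑ s ∈ B, F s = ∑ s ∈ B \ A, F s + ∑ s ∈ A, F s :=
    fun F => (Finset.sum_sdiff h).symm
  have h1 : Q B m g τ = Q (B \ A) m g τ + Q A m g τ + 2 * ∑ s ∈ A, ∑ s' ∈ B \ A, f s s' := by
    rw [hQ, hQ, hQ, e]
    have e2 : ∀ s, ∑ s' ∈ B, f s s' = ∑ s' ∈ B \ A, f s s' + ∑ s' ∈ A, f s s' := fun s => e (f s)
    simp_rw [e2]
    rw [Finset.sum_add_distrib, Finset.sum_add_distrib]
    have e3 : ∑ s ∈ B \ A, ∑ s' ∈ A, f s s' = ∑ s ∈ A, ∑ s' ∈ B \ A, f s s' := by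
      rw [Finset.sum_comm]
      exact Finset.sum_congr rfl fun s _ => Finset.sum_congr rfl fun s' _ => hfs s' s
    rw [e3]
    ring
  have h2 : |∑ s ∈ A, ∑ s' ∈ B \ A, f s s'| ≤ Cr A (B \ A) m g := by
    unfold Cr
    refine (Finset.abs_sum_le_sum_abs _ _).trans (Finset.sum_le_sum fun s _ => ?_)
    refine (Finset.abs_sum_le_sum_abs _ _).trans (Finset.sum_le_sum fun s' _ => ?_)
    rw [hf]
    simp only
    rw [abs_mul, abs_mul, abs_mul, abs_of_nonneg (hm s), abs_of_nonneg (hm s'),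
      abs_of_pos (wk_pos _)]
    refine mul_le_mul_of_nonneg_left ?_ (mul_nonneg (hm s) (hm s'))
    exact mul_le_of_le_one_left (wk_pos _).le (Real.abs_cos_le_one _)
  have h3 := Q_nonneg (B \ A) m g τ
  have h4 := (abs_le.1 h2).1
  rw [h1]
  linarith

/-- the indicator of a half line -/
lemma wk_split {x y T h1 h2 : ℝ} (hx : x ≤ T) (hy : T ≤ y) (h1p : 0 < h1) (h2p : 0 < h2) :
    wk (x - y) ≤ (if T - h1 ≤ x then 1 else 0) * (if y ≤ T + h1 then 1 else 0) +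
      4 / h1 ^ 2 * ((if T - h2 ≤ x then 1 else 0) * (if y ≤ T + h2 then 1 else 0)) +
      4 / h2 ^ 2 := by
  have hp1 : 0 ≤ (if T - h1 ≤ x then (1 : ℝ) else 0) * (if y ≤ T + h1 then 1 else 0) := by
    split_ifs <;> norm_num
  have hp2 : 0 ≤ 4 / h1 ^ 2 * ((if T - h2 ≤ x then (1 : ℝ) else 0) *
      (if y ≤ T + h2 then 1 else 0)) := by
    refine mul_nonneg (by positivity) ?_
    split_ifs <;> norm_num
  have hp3 : 0 ≤ 4 / h2 ^ 2 := by positivity
  by_cases c1 : y - x ≤ h1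
  · rw [if_pos (by linarith : T - h1 ≤ x), if_pos (by linarith : y ≤ T + h1)]
    have := wk_le (x - y)
    linarith
  · push Not at c1
    have hk : ∀ h : ℝ, 0 < h → h ≤ y - x → wk (x - y) ≤ 4 / h ^ 2 := by
      intro h hh hle
      unfold wk
      refine div_le_div_of_nonneg_left (by norm_num) (by positivity) ?_
      nlinarith
    by_cases c2 : y - x ≤ h2
    · have h3 := hk h1 h1p c1.le
      rw [if_pos (by linarith : T - h2 ≤ x), if_pos (by linarith : y ≤ T + h2)]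
      linarith
    · push Not at c2
      have h3 := hk h2 h2p c2.le
      linarith

lemma Cr_le {ι : Type*} (A B : Finset ι) (m g : ι → ℝ) (hm : ∀ n, 0 ≤ m n) {T h1 h2 : ℝ}
    (hA : ∀ s ∈ A, g s ≤ T) (hB : ∀ s ∈ B, T ≤ g s) (h1p : 0 < h1) (h2p : 0 < h2) :
    Cr A B m g ≤
      (∑ s ∈ A, m s * (if T - h1 ≤ g s then 1 else 0)) *
        (∑ s ∈ B, m s * (if g s ≤ T + h1 then 1 else 0)) +
      4 / h1 ^ 2 * ((∑ s ∈ A, m s * (if T - h2 ≤ g s then 1 else 0)) *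
        (∑ s ∈ B, m s * (if g s ≤ T + h2 then 1 else 0))) +
      4 / h2 ^ 2 * ((∑ s ∈ A, m s) * ∑ s ∈ B, m s) := by
  unfold Cr
  rw [Finset.sum_mul_sum, Finset.sum_mul_sum, Finset.sum_mul_sum, Finset.mul_sum, Finset.mul_sum,
    ← Finset.sum_add_distrib, ← Finset.sum_add_distrib]
  refine Finset.sum_le_sum fun s hs => ?_
  rw [Finset.mul_sum, Finset.mul_sum, ← Finset.sum_add_distrib, ← Finset.sum_add_distrib]
  refine Finset.sum_le_sum fun s' hs' => ?_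
  have h := mul_le_mul_of_nonneg_left (wk_split (hA s hs) (hB s' hs') h1p h2p)
    (mul_nonneg (hm s) (hm s'))
  refine h.trans (le_of_eq ?_)
  ring

end Pool.Agent.K3h31.PC
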